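import Pool.Agent.Lib.MP_6bc78b_nt.MS.QZ.Iface3

/-! Project MS, Part QZ, module DIA (helper82): diagonal sums of the powers of the prime
indicator. -/

set_option autoImplicit false

open Complex Filter Topology MeasureTheory ArithmeticFunction

namespace Pool.Agent.Lib.MP_6bc78b_nt.MS.QZ.H82

open Pool.Agent.Lib.MP_6bc78b_nt.MS Pool.Agent.Lib.MP_6bc78b_nt.MS.P1

theorem nu_nonneg (n : ℕ) : 0 ≤ nu n :=
  Finset.prod_nonneg fun _ _ => by positivity

theorem nu_le_one (n : ℕ) : nu n ≤ 1 := by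
  refine Finset.prod_le_one (fun _ _ => by positivity) fun p _ => ?_
  have h : (1 : ℝ) ≤ ((n.factorization p).factorial : ℝ) := by
    exact_mod_cast Nat.one_le_iff_ne_zero.2 (Nat.factorial_ne_zero _)
  exact (div_le_one (by linarith)).2 h

theorem fac_le (n p : ℕ) : n.factorization p ≤ cardFactors n := by
  rw [← Nat.primeFactorsList_count_eq, cardFactors_apply]
  exact List.count_le_length

theorem card_le (n : ℕ) : n.primeFactors.card ≤ cardFactors n := by
  rw [cardFactors_apply]
  exact List.toFinset_card_le _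

/-- lower bound for `nu` -/
theorem nu_ge (m j : ℕ) (hj : cardFactors m = j) :
    (1 / (j.factorial : ℝ)) ^ j ≤ nu m := by
  have h0 : (1 : ℝ) ≤ (j.factorial : ℝ) := by
    exact_mod_cast Nat.one_le_iff_ne_zero.2 (Nat.factorial_ne_zero _)
  have h1 : (1 / (j.factorial : ℝ)) ≤ 1 := (div_le_one (by linarith)).2 h0
  have h2 : (0 : ℝ) ≤ 1 / (j.factorial : ℝ) := by positivity
  have h3 : (1 / (j.factorial : ℝ)) ^ j ≤ (1 / (j.factorial : ℝ)) ^ m.primeFactors.card := by
    apply pow_le_pow_of_le_one h2 h1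
    rw [← hj]
    exact card_le m
  refine le_trans h3 ?_
  unfold nu
  rw [← Finset.prod_const]
  refine Finset.prod_le_prod (fun _ _ => h2) fun p _ => ?_
  apply one_div_le_one_div_of_le
  · exact_mod_cast Nat.factorial_pos _
  · have h4 : (m.factorization p).factorial ≤ j.factorial := by
      apply Nat.factorial_le
      rw [← hj]
      exact fac_le m p
    exact_mod_cast h4

/-- a square divides `n` if `nu n ≠ 1` -/
theorem exists_sq (n : ℕ) (hn : n ≠ 0) (h : nu n ≠ 1) :
    ∃ p ∈ n.primeFactors, p ^ 2 ∣ n := by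
  by_contra hcon
  push Not at hcon
  apply h
  unfold nu
  refine Finset.prod_eq_one fun p hp => ?_
  have hpp := Nat.prime_of_mem_primeFactors hp
  have h1 : n.factorization p < 2 := by
    by_contra h2
    push Not at h2
    exact hcon p hp ((hpp.pow_dvd_iff_le_factorization hn).2 h2)
  have h2 : n.factorization p = 0 ∨ n.factorization p = 1 := by omega
  rcases h2 with h2 | h2 <;> rw [h2] <;> simp

theorem pow_nonneg' (hV : VnuStatement) (S : Finset ℕ) (j n : ℕ) : 0 ≤ (pS S ^ j) n := by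
  by_cases hn : n = 0
  · subst hn
    simp
  · rw [hV.1 S j n hn]
    split_ifs
    · exact mul_nonneg (by positivity) (nu_nonneg n)
    · exact le_rfl

theorem pow_le' (hV : VnuStatement) (S : Finset ℕ) (j n : ℕ) :
    (pS S ^ j) n ≤ (j.factorial : ℝ) := by
  by_cases hn : n = 0
  · subst hn
    simp
  · rw [hV.1 S j n hn]
    split_ifs
    · have h1 := nu_le_one n
      have h2 : (0 : ℝ) ≤ (j.factorial : ℝ) := by positivity
      nlinarith
    · positivity

/-- one term -/
theorem term_le (hV : VnuStatement) (S : Finset ℕ) (j n : ℕ) (hn : n ≠ 0)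
    (h0 : (pS S ^ (j + 2)) n ≠ 0) (h1 : (pS S ^ (j + 2)) n ≠ ((j + 2).factorial : ℝ)) :
    (1 / (j.factorial : ℝ)) ^ j ≤
      ∑ p ∈ S.filter (fun p => p.Prime ∧ p ^ 2 ∣ n), (pS S ^ j) (n / p ^ 2) := by
  rw [hV.1 S (j + 2) n hn] at h0 h1
  have h2 : n.primeFactors ⊆ S ∧ cardFactors n = j + 2 := by
    by_contra hcon
    rw [if_neg hcon] at h0
    exact h0 rfl
  rw [if_pos h2] at h0 h1
  have h3 : nu n ≠ 1 := by
    intro h
    rw [h, mul_one] at h1
    exact h1 rfl
  obtain ⟨p, hp, hpn⟩ := exists_sq n hn h3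
  have hpp := Nat.prime_of_mem_primeFactors hp
  have hpS : p ∈ S.filter (fun p => p.Prime ∧ p ^ 2 ∣ n) :=
    Finset.mem_filter.2 ⟨h2.1 hp, hpp, hpn⟩
  refine le_trans ?_ (Finset.single_le_sum (f := fun p => (pS S ^ j) (n / p ^ 2))
    (fun q _ => pow_nonneg' hV S j _) hpS)
  obtain ⟨m, hm⟩ := hpn
  have hp2 : 0 < p ^ 2 := pow_pos hpp.pos 2
  have hm0 : m ≠ 0 := by
    rintro rfl
    rw [mul_zero] at hm
    exact hn hm
  have hdiv : n / p ^ 2 = m := by
    rw [hm]
    exact Nat.mul_div_cancel_left m hp2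
  have hcm : cardFactors m = j := by
    have h4 : cardFactors n = 2 + cardFactors m := by
      rw [hm, cardFactors_mul hp2.ne' hm0, cardFactors_apply_prime_pow hpp]
    omega
  have hmS : m.primeFactors ⊆ S := by
    refine subset_trans ?_ h2.1
    exact Nat.primeFactors_mono ⟨p ^ 2, by rw [hm, mul_comm]⟩ hn
  show _ ≤ (pS S ^ j) (n / p ^ 2)
  rw [hdiv, hV.1 S j m hm0, if_pos ⟨hmS, hcm⟩]
  have h5 := nu_ge m j hcm
  have h6 : (1 : ℝ) ≤ (j.factorial : ℝ) := by
    exact_mod_cast Nat.one_le_iff_ne_zero.2 (Nat.factorial_ne_zero _)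
  have h7 := nu_nonneg m
  nlinarith

/-- the sum over the multiples of `p ^ 2` -/
theorem sum_mult (hV : VnuStatement) (hP : PsmStatement) (S : Finset ℕ) (hS : IsPr S)
    (j N p : ℕ) (hp : 0 < p) :
    ∑ n ∈ (Finset.Icc 1 N).filter (fun n => p ^ 2 ∣ n), (pS S ^ j) (n / p ^ 2) / (n : ℝ) ≤
      ((p : ℝ) ^ 2)⁻¹ * rs S ^ j := by
  have hp2 : 0 < p ^ 2 := pow_pos hp 2
  have h1 : ∑ n ∈ (Finset.Icc 1 N).filter (fun n => p ^ 2 ∣ n),
      (pS S ^ j) (n / p ^ 2) / (n : ℝ) =
      ((p : ℝ) ^ 2)⁻¹ * ∑ n ∈ (Finset.Icc 1 N).filter (fun n => p ^ 2 ∣ n),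
        (pS S ^ j) (n / p ^ 2) / ((n / p ^ 2 : ℕ) : ℝ) := by
    rw [Finset.mul_sum]
    refine Finset.sum_congr rfl fun n hn => ?_
    have hd := (Finset.mem_filter.1 hn).2
    obtain ⟨m, hm⟩ := hd
    have hdiv : n / p ^ 2 = m := by
      rw [hm]
      exact Nat.mul_div_cancel_left m hp2
    rw [hdiv, hm]
    push_cast
    rw [div_eq_mul_inv, div_eq_mul_inv, mul_inv]
    ring
  rw [h1]
  refine mul_le_mul_of_nonneg_left ?_ (by positivity)
  have hinj : Set.InjOn (fun n : ℕ => n / p ^ 2)
      ((Finset.Icc 1 N).filter (fun n => p ^ 2 ∣ n) : Finset ℕ) := by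
    intro a ha b hb hab
    have ha' := (Finset.mem_filter.1 (Finset.mem_coe.1 ha)).2
    have hb' := (Finset.mem_filter.1 (Finset.mem_coe.1 hb)).2
    have h2 : a / p ^ 2 = b / p ^ 2 := hab
    rw [← Nat.div_mul_cancel ha', ← Nat.div_mul_cancel hb', h2]
  have h2 := Finset.sum_image (f := fun m : ℕ => (pS S ^ j) m / (m : ℝ)) hinj
  rw [← h2]
  exact sum_le_hasSum _ (fun m _ => div_nonneg (pow_nonneg' hV S j m) (Nat.cast_nonneg m))
    (hP.1 S j hS)

theorem rq_bound (S : Finset ℕ) : ∑ p ∈ S, ((p : ℝ) ^ 2)⁻¹ ≤ ∑' n : ℕ, ((n : ℝ) ^ 2)⁻¹ := by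
  have hs : Summable fun n : ℕ => ((n : ℝ) ^ 2)⁻¹ := by
    have := Real.summable_nat_pow_inv.2 (show 1 < 2 by norm_num)
    exact this
  exact hs.sum_le_tsum S fun i _ => by positivity

/-- Module DIA. -/
theorem dia (hV : VnuStatement) (hP : PsmStatement) : DiaStatement := by
  constructor
  · intro S a b N hab
    refine Finset.sum_eq_zero fun n hn => ?_
    have hn0 : n ≠ 0 := by
      have := (Finset.mem_Icc.1 hn).1
      omega
    rw [hV.1 S a n hn0, hV.1 S b n hn0]
    by_cases h : n.primeFactors ⊆ S ∧ cardFactors n = a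
    · have h2 : ¬ (n.primeFactors ⊆ S ∧ cardFactors n = b) := by
        rintro ⟨-, h3⟩
        exact hab (h.2.symm.trans h3)
      rw [if_neg h2]
      simp
    · rw [if_neg h]
      simp
  · intro a
    -- the value of the linear sum
    have hlin : ∀ (S : Finset ℕ) (N : ℕ), IsPr S → (∀ n, (pS S ^ a) n ≠ 0 → n ≤ N) →
        ∑ n ∈ Finset.Icc 1 N, (pS S ^ a) n / (n : ℝ) = rs S ^ a := by
      intro S N hS hN
      have h1 : HasSum (fun n : ℕ => (pS S ^ a) n / (n : ℝ))
          (∑ n ∈ Finset.Icc 1 N, (pS S ^ a) n / (n : ℝ)) :=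
        hasSum_sum_of_ne_finset_zero (by
          intro n hn
          by_cases hn0 : n = 0
          · subst hn0
            simp
          · have h2 : (pS S ^ a) n = 0 := by
              by_contra h3
              exact hn (Finset.mem_Icc.2 ⟨Nat.one_le_iff_ne_zero.2 hn0, hN n h3⟩)
            show (pS S ^ a) n / (n : ℝ) = 0
            rw [h2, zero_div])
      exact h1.unique (hP.1 S a hS)
    have hdiff : ∀ (S : Finset ℕ) (N : ℕ), IsPr S → (∀ n, (pS S ^ a) n ≠ 0 → n ≤ N) →
        (a.factorial : ℝ) * rs S ^ a -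
          ∑ n ∈ Finset.Icc 1 N, (pS S ^ a) n * (pS S ^ a) n / (n : ℝ) =
        ∑ n ∈ Finset.Icc 1 N, (pS S ^ a) n * ((a.factorial : ℝ) - (pS S ^ a) n) / (n : ℝ) := by
      intro S N hS hN
      rw [← hlin S N hS hN, Finset.mul_sum, ← Finset.sum_sub_distrib]
      refine Finset.sum_congr rfl fun n _ => ?_
      ring
    rcases Nat.lt_or_ge a 2 with ha | ha
    · refine ⟨1, one_pos, fun S N hS hr hN => ?_⟩
      have h1 : (a.factorial : ℝ) * rs S ^ a -
          ∑ n ∈ Finset.Icc 1 N, (pS S ^ a) n * (pS S ^ a) n / (n : ℝ) = 0 := by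
        rw [hdiff S N hS hN]
        refine Finset.sum_eq_zero fun n hn => ?_
        have hn0 : n ≠ 0 := by
          have := (Finset.mem_Icc.1 hn).1
          omega
        by_cases h2 : (pS S ^ a) n = 0
        · rw [h2]
          simp
        · by_cases h3 : (pS S ^ a) n = (a.factorial : ℝ)
          · rw [h3]
            simp
          · exfalso
            rw [hV.1 S a n hn0] at h2 h3
            have h4 : n.primeFactors ⊆ S ∧ cardFactors n = a := by
              by_contra hcon
              rw [if_neg hcon] at h2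
              exact h2 rfl
            rw [if_pos h4] at h3
            have h5 : nu n ≠ 1 := by
              intro h
              rw [h, mul_one] at h3
              exact h3 rfl
            obtain ⟨p, hp, m, hm⟩ := exists_sq n hn0 h5
            have hpp := Nat.prime_of_mem_primeFactors hp
            have hm0 : m ≠ 0 := by
              rintro rfl
              rw [mul_zero] at hm
              exact hn0 hm
            have h6 : cardFactors n = 2 + cardFactors m := by
              rw [hm, cardFactors_mul (pow_pos hpp.pos 2).ne' hm0, cardFactors_apply_prime_pow hpp]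
            omega
      rw [abs_sub_comm, h1, abs_zero]
      positivity
    · obtain ⟨j, rfl⟩ : ∃ j, a = j + 2 := ⟨a - 2, by omega⟩
      set A : ℝ := ((j + 2).factorial : ℝ) with hA
      set c : ℝ := (1 / (j.factorial : ℝ)) ^ j with hc
      set Z : ℝ := ∑' n : ℕ, ((n : ℝ) ^ 2)⁻¹ with hZ
      have hc0 : 0 < c := by positivity
      have hA0 : 0 < A := by positivity
      have hZ0 : 0 ≤ Z := tsum_nonneg fun _ => by positivity
      refine ⟨A * A * c⁻¹ * (Z + 1), by positivity, fun S N hS hr hN => ?_⟩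
      have hrs0 : 0 < rs S := by linarith
      -- the difference
      have h1 : 0 ≤ (A * rs S ^ (j + 2) -
          ∑ n ∈ Finset.Icc 1 N, (pS S ^ (j + 2)) n * (pS S ^ (j + 2)) n / (n : ℝ)) := by
        rw [hdiff S N hS hN]
        refine Finset.sum_nonneg fun n _ => div_nonneg (mul_nonneg (pow_nonneg' hV S _ n) ?_)
          (Nat.cast_nonneg n)
        have := pow_le' hV S (j + 2) n
        linarith
      have h2 : (A * rs S ^ (j + 2) -
          ∑ n ∈ Finset.Icc 1 N, (pS S ^ (j + 2)) n * (pS S ^ (j + 2)) n / (n : ℝ)) ≤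
          A * A * c⁻¹ * ∑ n ∈ Finset.Icc 1 N,
            ∑ p ∈ S.filter (fun p => p.Prime ∧ p ^ 2 ∣ n), (pS S ^ j) (n / p ^ 2) / (n : ℝ) := by
        rw [hdiff S N hS hN, Finset.mul_sum]
        refine Finset.sum_le_sum fun n hn => ?_
        have hn1 : 1 ≤ n := (Finset.mem_Icc.1 hn).1
        have hn0 : n ≠ 0 := by omega
        have hnpos : (0 : ℝ) < n := by exact_mod_cast hn1
        have hsum : 0 ≤ ∑ p ∈ S.filter (fun p => p.Prime ∧ p ^ 2 ∣ n),
            (pS S ^ j) (n / p ^ 2) := Finset.sum_nonneg fun p _ => pow_nonneg' hV S j _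
        rw [← Finset.sum_div, ← mul_div_assoc]
        apply div_le_div_of_nonneg_right _ hnpos.le
        have h3 := pow_nonneg' hV S (j + 2) n
        have h4 := pow_le' hV S (j + 2) n
        by_cases h5 : (pS S ^ (j + 2)) n = 0
        · rw [h5, zero_mul]
          positivity
        · by_cases h6 : (pS S ^ (j + 2)) n = ((j + 2).factorial : ℝ)
          · rw [h6, sub_self, mul_zero]
            positivity
          · have h7 := term_le hV S j n hn0 h5 h6
            have h8 : 1 ≤ c⁻¹ * ∑ p ∈ S.filter (fun p => p.Prime ∧ p ^ 2 ∣ n),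
                (pS S ^ j) (n / p ^ 2) := by
              rw [← inv_mul_cancel₀ hc0.ne']
              exact mul_le_mul_of_nonneg_left h7 (by positivity)
            have h9 : (pS S ^ (j + 2)) n * (((j + 2).factorial : ℝ) - (pS S ^ (j + 2)) n) ≤
                A * A := by
              apply mul_le_mul h4 _ (by linarith) hA0.le
              linarith
            calc _ ≤ A * A := h9
              _ = A * A * 1 := (mul_one _).symm
              _ ≤ A * A * (c⁻¹ * ∑ p ∈ S.filter (fun p => p.Prime ∧ p ^ 2 ∣ n),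
                (pS S ^ j) (n / p ^ 2)) := mul_le_mul_of_nonneg_left h8 (by positivity)
              _ = _ := by ring
      have h3 : ∑ n ∈ Finset.Icc 1 N,
            ∑ p ∈ S.filter (fun p => p.Prime ∧ p ^ 2 ∣ n), (pS S ^ j) (n / p ^ 2) / (n : ℝ) ≤
          Z * rs S ^ j := by
        have h4 : ∑ n ∈ Finset.Icc 1 N,
            ∑ p ∈ S.filter (fun p => p.Prime ∧ p ^ 2 ∣ n), (pS S ^ j) (n / p ^ 2) / (n : ℝ) =
            ∑ p ∈ S, ∑ n ∈ (Finset.Icc 1 N).filter (fun n => p ^ 2 ∣ n),
              (pS S ^ j) (n / p ^ 2) / (n : ℝ) := by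
          simp_rw [Finset.sum_filter]
          rw [Finset.sum_comm]
          refine Finset.sum_congr rfl fun p hp => Finset.sum_congr rfl fun n _ => ?_
          have hpp := hS p hp
          simp only [hpp, true_and]
        rw [h4]
        calc _ ≤ ∑ p ∈ S, ((p : ℝ) ^ 2)⁻¹ * rs S ^ j :=
              Finset.sum_le_sum fun p hp => sum_mult hV hP S hS j N p (hS p hp).pos
          _ = (∑ p ∈ S, ((p : ℝ) ^ 2)⁻¹) * rs S ^ j := by rw [Finset.sum_mul]
          _ ≤ Z * rs S ^ j := mul_le_mul_of_nonneg_right (rq_bound S) (by positivity)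
      rw [abs_sub_comm, abs_of_nonneg h1]
      refine le_trans h2 ?_
      have h5 : rs S ^ j ≤ rs S ^ (j + 2) / rs S := by
        rw [le_div_iff₀ hrs0, ← pow_succ]
        exact pow_le_pow_right₀ hr (by omega)
      calc _ ≤ A * A * c⁻¹ * (Z * rs S ^ j) := mul_le_mul_of_nonneg_left h3 (by positivity)
        _ ≤ A * A * c⁻¹ * ((Z + 1) * (rs S ^ (j + 2) / rs S)) := by
            apply mul_le_mul_of_nonneg_left _ (by positivity)
            apply mul_le_mul (by linarith) h5 (by positivity) (by linarith)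
        _ = _ := by ring

end Pool.Agent.Lib.MP_6bc78b_nt.MS.QZ.H82
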